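import Mathlib

/-!
Seminorm combinatorics: integers that act precompactly on small balls, escaping elements, and the
construction of an independent null sequence.
-/

namespace Pool.Agent.P.MP_e45129_gt

open Set

variable {G : Type*} [AddCommGroup G]

theorem sn_sub_le (p : AddGroupSeminorm G) (x y : G) : p (x - y) ≤ p x + p y :=
  map_sub_le_add p x y

theorem sn_tri (p : AddGroupSeminorm G) (x y z : G) : p (x - z) ≤ p (x - y) + p (y - z) := by
  have := map_add_le_add p (x - y) (y - z)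
  rwa [sub_add_sub_cancel] at this

theorem sn_comm (p : AddGroupSeminorm G) (x y : G) : p (x - y) = p (y - x) :=
  map_sub_rev p x y

theorem sn_sum_le (p : AddGroupSeminorm G) {ι : Type*} (s : Finset ι) (f : ι → G) :
    p (∑ i ∈ s, f i) ≤ ∑ i ∈ s, p (f i) := by
  classical
  induction s using Finset.induction_on with
  | empty => simp
  | insert a s ha ih =>
    rw [Finset.sum_insert ha, Finset.sum_insert ha]
    linarith [map_add_le_add p (f a) (∑ i ∈ s, f i)]

theorem sn_nsmul_le (p : AddGroupSeminorm G) (n : ℕ) (x : G) : p (n • x) ≤ n * p x := by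
  induction n with
  | zero => simp
  | succ n ih =>
    rw [succ_nsmul]
    have := map_add_le_add p (n • x) x
    push_cast
    linarith

theorem sn_zsmul_le (p : AddGroupSeminorm G) (k : ℤ) (x : G) : p (k • x) ≤ |(k : ℝ)| * p x := by
  rcases Int.eq_nat_or_neg k with ⟨n, rfl | rfl⟩
  · rw [natCast_zsmul]
    simpa using sn_nsmul_le p n x
  · rw [neg_smul, map_neg_eq_map, natCast_zsmul]
    simpa using sn_nsmul_le p n x

/-- multiplication by `k` maps small `μ`-balls to sets that are almost `ν`-precompact -/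
def Good (μ ν : AddGroupSeminorm G) (k : ℤ) : Prop :=
  ∀ ε : ℝ, 0 < ε → ∃ r : ℝ, 0 < r ∧ ∃ F : Finset G, ∀ x, μ x < r → ∃ f ∈ F, ν (k • x - f) < ε

/-- no image of a `μ`-ball under `k` is covered by finitely many `ν`-balls of radius `δ` -/
def Esc (μ ν : AddGroupSeminorm G) (δ : ℝ) (k : ℤ) : Prop :=
  ∀ r : ℝ, 0 < r → ∀ F : Finset G, ∃ x, μ x < r ∧ ∀ f ∈ F, δ ≤ ν (k • x - f)

/-- elements all of whose first multiples are `δ`-small are small -/
def Expand (ν : AddGroupSeminorm G) (δ : ℝ) : Prop :=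
  ∀ ε : ℝ, 0 < ε → ∃ n : ℕ, ∀ x, (∀ j : ℕ, 1 ≤ j → j ≤ n → ν (j • x) < δ) → ν x < ε

theorem good_zero (μ ν : AddGroupSeminorm G) : Good μ ν 0 :=
  fun ε hε => ⟨1, one_pos, {0}, fun x _ => ⟨0, by simp, by simpa using hε⟩⟩

theorem Good.add {μ ν : AddGroupSeminorm G} {k l : ℤ} (hk : Good μ ν k) (hl : Good μ ν l) :
    Good μ ν (k + l) := by
  classical
  intro ε hε
  obtain ⟨r, hr, F, hF⟩ := hk (ε / 2) (by positivity)
  obtain ⟨r', hr', F', hF'⟩ := hl (ε / 2) (by positivity)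
  refine ⟨min r r', lt_min hr hr', Finset.image₂ (· + ·) F F', fun x hx => ?_⟩
  obtain ⟨f, hf, h1⟩ := hF x (hx.trans_le (min_le_left _ _))
  obtain ⟨f', hf', h2⟩ := hF' x (hx.trans_le (min_le_right _ _))
  refine ⟨f + f', Finset.mem_image₂_of_mem hf hf', ?_⟩
  have e : (k + l) • x - (f + f') = (k • x - f) + (l • x - f') := by rw [add_smul]; abel
  rw [e]
  linarith [map_add_le_add ν (k • x - f) (l • x - f')]

theorem Good.neg {μ ν : AddGroupSeminorm G} {k : ℤ} (hk : Good μ ν k) : Good μ ν (-k) := by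
  classical
  intro ε hε
  obtain ⟨r, hr, F, hF⟩ := hk ε hε
  refine ⟨r, hr, F.image (fun f => -f), fun x hx => ?_⟩
  obtain ⟨f, hf, h1⟩ := hF x hx
  refine ⟨-f, Finset.mem_image_of_mem _ hf, ?_⟩
  have e : (-k) • x - -f = -(k • x - f) := by rw [neg_smul]; abel
  rw [e, map_neg_eq_map]
  exact h1

theorem exists_good_iff_dvd (μ ν : AddGroupSeminorm G) :
    ∃ d : ℕ, ∀ k : ℤ, Good μ ν k ↔ (d : ℤ) ∣ k := by
  let H : AddSubgroup ℤ :=
    { carrier := {k | Good μ ν k}
      zero_mem' := good_zero μ ν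
      add_mem' := fun hk hl => Good.add hk hl
      neg_mem' := fun hk => Good.neg hk }
  obtain ⟨a, ha⟩ := Int.subgroup_cyclic H
  refine ⟨a.natAbs, fun k => ?_⟩
  have : k ∈ H ↔ a ∣ k := by
    rw [ha, ← AddSubgroup.zmultiples_eq_closure, Int.mem_zmultiples_iff]
  rw [Int.natAbs_dvd]
  exact this

theorem Good.mono {μ μ' ν : AddGroupSeminorm G} {k : ℤ} (hk : Good μ ν k)
    (h : ∀ x, μ x ≤ μ' x) : Good μ' ν k := by
  intro ε hε
  obtain ⟨r, hr, F, hF⟩ := hk ε hε
  exact ⟨r, hr, F, fun x hx => hF x ((h x).trans_lt hx)⟩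

/-- covering a set by the fibres of a map with finitely many values -/
theorem cover_of_fibres {α β : Type*} (A : Set α) (φ : α → β) (T : Finset β)
    (hφ : ∀ x ∈ A, φ x ∈ T) :
    ∃ F : Finset α, (∀ y ∈ F, y ∈ A) ∧ ∀ x ∈ A, ∃ y ∈ F, φ y = φ x := by
  classical
  have hfin : (φ '' A).Finite := T.finite_toSet.subset (by rintro _ ⟨x, hx, rfl⟩; exact hφ x hx)
  obtain ⟨B, hBA, hBfin, hB⟩ := Set.Finite.exists_subset_finite_image_eq hfin (Subset.refl _)
  refine ⟨hBfin.toFinset, fun y hy => hBA (hBfin.mem_toFinset.1 hy), fun x hx => ?_⟩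
  have : φ x ∈ φ '' B := by rw [hB]; exact mem_image_of_mem _ hx
  obtain ⟨y, hy, hyx⟩ := this
  exact ⟨y, hBfin.mem_toFinset.2 hy, hyx⟩

theorem esc_of_not_good {μ ν : AddGroupSeminorm G} {δ : ℝ} (hν : Expand ν δ) {k : ℤ}
    (hk : ¬ Good μ ν k) : Esc μ ν (δ / 2) k := by
  classical
  intro r hr F
  by_contra hcon
  push Not at hcon
  apply hk
  intro ε hε
  obtain ⟨n, hn⟩ := hν ε hε
  choose! c hcF hc using hcon
  have hsm : ∀ x, μ x < r / (n + 1) → ∀ j : Fin (n + 1), μ ((j : ℕ) • x) < r := by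
    intro x hx j
    have h1 := sn_nsmul_le μ j x
    have h2 : ((j : ℕ) : ℝ) ≤ n := by exact_mod_cast Nat.lt_succ_iff.1 j.2
    have h3 : 0 ≤ μ x := apply_nonneg μ x
    have h4 : μ x * (n + 1) < r := by rwa [lt_div_iff₀ (by positivity)] at hx
    nlinarith
  obtain ⟨Y, hY, hY'⟩ := cover_of_fibres {x | μ x < r / (n + 1)}
    (fun x (j : Fin (n + 1)) => c ((j : ℕ) • x)) (Fintype.piFinset fun _ => F)
    (fun x hx => Fintype.mem_piFinset.2 fun j => hcF _ (hsm x hx j))
  refine ⟨r / (n + 1), by positivity, Y.image (fun y => k • y), fun x hx => ?_⟩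
  obtain ⟨y, hy, hyx⟩ := hY' x hx
  refine ⟨k • y, Finset.mem_image_of_mem _ hy, hn _ fun j _ hj => ?_⟩
  have e := congrFun hyx ⟨j, Nat.lt_succ_of_le hj⟩
  simp only at e
  have h1 := hc _ (hsm x hx ⟨j, Nat.lt_succ_of_le hj⟩)
  have h2 := hc _ (hsm y (hY y hy) ⟨j, Nat.lt_succ_of_le hj⟩)
  simp only at h1 h2
  rw [e] at h2
  have e2 : j • (k • x - k • y) = k • j • x - k • j • y := by
    rw [smul_sub, smul_comm j k x, smul_comm j k y]
  rw [e2]
  have := sn_tri ν (k • j • x) (c (j • x)) (k • j • y)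
  rw [sn_comm ν (c (j • x))] at this
  linarith

theorem Esc.add_good {μ ν p : AddGroupSeminorm G} {k l : ℤ} {δ : ℝ} (hk : Good μ ν k)
    (hl : Esc μ p δ l) : Esc (μ + ν.comp (zsmulAddGroupHom k)) p δ l := by
  classical
  intro r hr F
  obtain ⟨r', hr', F', hF'⟩ := hk (r / 4) (by positivity)
  choose! c hcF hc using hF'
  obtain ⟨Y, hY, hY'⟩ := cover_of_fibres {x | μ x < min r' (r / 4)} c F'
    (fun x hx => hcF x (lt_of_lt_of_le hx (min_le_left _ _)))
  obtain ⟨x, hx, hxF⟩ := hl (min r' (r / 4)) (lt_min hr' (by positivity))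
    (Finset.image₂ (fun f y => f + l • y) F Y)
  obtain ⟨y, hy, hyx⟩ := hY' x hx
  have hy' : μ y < min r' (r / 4) := hY y hy
  refine ⟨x - y, ?_, fun f hf => ?_⟩
  · have h1 := hc x (lt_of_lt_of_le hx (min_le_left _ _))
    have h2 := hc y (lt_of_lt_of_le hy' (min_le_left _ _))
    rw [hyx] at h2
    have h3 := sn_tri ν (k • x) (c x) (k • y)
    rw [sn_comm ν (c x)] at h3
    have h4 := sn_sub_le μ x y
    have h5 := lt_of_lt_of_le hx (min_le_right _ _)
    have h6 := lt_of_lt_of_le hy' (min_le_right _ _)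
    change μ (x - y) + ν (k • (x - y)) < r
    rw [smul_sub]
    linarith
  · have := hxF (f + l • y) (Finset.mem_image₂_of_mem hf hy)
    have e : l • (x - y) - f = l • x - (f + l • y) := by rw [smul_sub]; abel
    rw [e]; exact this

theorem exists_absorb {ι : Type*} (μ : AddGroupSeminorm G) (ν : ι → AddGroupSeminorm G)
    (k : ι → ℤ) (T : Finset ι) (hT : ∀ t ∈ T, Good μ (ν t) (k t)) :
    ∃ μ' : AddGroupSeminorm G, (∀ x, μ x ≤ μ' x) ∧ (∀ t ∈ T, ∀ x, ν t (k t • x) ≤ μ' x) ∧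
      ∀ p δ l, Esc μ p δ l → Esc μ' p δ l := by
  classical
  induction T using Finset.induction_on with
  | empty => exact ⟨μ, fun _ => le_rfl, by simp, fun _ _ _ h => h⟩
  | insert a T ha ih =>
    obtain ⟨μ', h1, h2, h3⟩ := ih fun t ht => hT t (Finset.mem_insert_of_mem ht)
    have hg : Good μ' (ν a) (k a) := (hT a (Finset.mem_insert_self _ _)).mono h1
    refine ⟨μ' + (ν a).comp (zsmulAddGroupHom (k a)), fun x => ?_, fun t ht x => ?_,
      fun p δ l h => (h3 p δ l h).add_good hg⟩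
    · change μ x ≤ μ' x + ν a (k a • x)
      linarith [h1 x, apply_nonneg (ν a) (k a • x)]
    · change ν t (k t • x) ≤ μ' x + ν a (k a • x)
      rcases Finset.mem_insert.1 ht with rfl | ht
      · linarith [apply_nonneg μ' x]
      · linarith [h2 t ht x, apply_nonneg (ν a) (k a • x)]

/-- a local form of the lemma of B. H. Neumann on coverings by cosets -/
theorem esc_simul {ι : Type*} (μ : AddGroupSeminorm G) (ν : ι → AddGroupSeminorm G)
    (δ : ι → ℝ) (k : ι → ℤ) (T : Finset ι) (hT : ∀ t ∈ T, Esc μ (ν t) (δ t) (k t)) :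
    ∀ r : ℝ, 0 < r → ∀ F : Finset G, ∃ x, μ x < r ∧
      ∀ t ∈ T, ∀ f ∈ F, δ t / 3 ≤ ν t (k t • x - f) := by
  classical
  induction T using Finset.induction_on with
  | empty => exact fun r hr F => ⟨0, by simpa using hr, by simp⟩
  | insert a T ha ih =>
    intro r hr F
    obtain ⟨x₀, hx₀, hx₀F⟩ := hT a (Finset.mem_insert_self _ _) (r / 3) (by positivity) F
    have hch : ∀ f : G, ∃ y, (∃ z, μ z < r / 3 ∧ ν a (k a • z - f) < δ a / 3) →
        μ y < r / 3 ∧ ν a (k a • y - f) < δ a / 3 := by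
      intro f
      by_cases h : ∃ z, μ z < r / 3 ∧ ν a (k a • z - f) < δ a / 3
      · obtain ⟨z, hz⟩ := h
        exact ⟨z, fun _ => hz⟩
      · exact ⟨0, fun h' => absurd h' h⟩
    choose y hy using hch
    obtain ⟨x, hx, hxF⟩ := ih (fun t ht => hT t (Finset.mem_insert_of_mem ht)) (r / 3)
      (by positivity) (F ∪ T.biUnion fun t =>
        Finset.image₂ (fun f' f => f' - k t • (x₀ - y f)) F F)
    by_cases hxa : ∀ f ∈ F, δ a / 3 ≤ ν a (k a • x - f)
    · refine ⟨x, by linarith, fun t ht f hf => ?_⟩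
      rcases Finset.mem_insert.1 ht with rfl | ht
      · exact hxa f hf
      · exact hxF t ht f (Finset.mem_union_left _ hf)
    · push Not at hxa
      obtain ⟨f, hf, hlt⟩ := hxa
      obtain ⟨hy1, hy2⟩ := hy f ⟨x, hx, hlt⟩
      refine ⟨x + (x₀ - y f), ?_, fun t ht f' hf' => ?_⟩
      · linarith [map_add_le_add μ x (x₀ - y f), sn_sub_le μ x₀ (y f)]
      · rcases Finset.mem_insert.1 ht with rfl | ht
        · have h1 := hx₀F f' hf'
          have h2 := sn_tri (ν t) (k t • y f) f (k t • x)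
          rw [sn_comm (ν t) f] at h2
          have e : k t • x₀ - f' = (k t • (x + (x₀ - y f)) - f') + (k t • y f - k t • x) := by
            rw [smul_add, smul_sub]; abel
          have h3 := map_add_le_add (ν t) (k t • (x + (x₀ - y f)) - f') (k t • y f - k t • x)
          rw [← e] at h3
          linarith
        · have := hxF t ht (f' - k t • (x₀ - y f)) (Finset.mem_union_right _
            (Finset.mem_biUnion.2 ⟨t, ht, Finset.mem_image₂_of_mem hf' hf⟩))
          have e : k t • (x + (x₀ - y f)) - f' = k t • x - (f' - k t • (x₀ - y f)) := by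
            rw [smul_add]; abel
          rw [e]; exact this

theorem exists_rec_seq {α : Type*} [Inhabited α] (P : ℕ → (ℕ → α) → α → Prop)
    (hex : ∀ m prev, ∃ x, P m prev x)
    (hloc : ∀ m prev prev' x, (∀ l < m, prev l = prev' l) → P m prev x → P m prev' x) :
    ∃ g : ℕ → α, ∀ m, P m g (g m) := by
  classical
  choose nx hnx using hex
  let s : ℕ → ℕ → α := fun m =>
    Nat.rec (fun _ => default) (fun m prev => Function.update prev m (nx m prev)) m
  have hs : ∀ m, s (m + 1) = Function.update (s m) m (nx m (s m)) := fun m => rfl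
  have hst : ∀ m l, l < m → s m l = s (l + 1) l := by
    intro m
    induction m with
    | zero => intro l hl; omega
    | succ m ih =>
      intro l hl
      rcases Nat.lt_succ_iff_lt_or_eq.1 hl with h | rfl
      · rw [hs, Function.update_of_ne h.ne, ih l h]
      · rfl
  refine ⟨fun m => s (m + 1) m, fun m => ?_⟩
  have : s (m + 1) m = nx m (s m) := by rw [hs, Function.update_self]
  refine hloc m (s m) _ _ (fun l hl => hst m l hl) ?_
  simp only [this]
  exact hnx m (s m)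

/-- the independent null sequence -/
theorem exists_indep_seq (μ : AddGroupSeminorm G) (ν : ℕ → AddGroupSeminorm G) (δ : ℕ → ℝ)
    (hν : ∀ i, Expand (ν i) (δ i)) :
    ∃ g : ℕ → G, ∀ m : ℕ, μ (g m) < (1 / 2 : ℝ) ^ m ∧
      (∀ i ≤ m, ∀ k : ℤ, |k| ≤ m → Good μ (ν i) k → ν i (k • g m) < (1 / 2 : ℝ) ^ m) ∧
      (∀ i ≤ m, ∀ k : ℤ, |k| ≤ m → ¬ Good μ (ν i) k → ∀ c : ℕ → ℤ, (∀ l < m, |c l| ≤ m) →
        δ i / 6 ≤ ν i (k • g m - ∑ l ∈ Finset.range m, c l • g l)) := by
  classical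
  have : Inhabited G := ⟨0⟩
  refine exists_rec_seq (fun m g x => μ x < (1 / 2 : ℝ) ^ m ∧
      (∀ i ≤ m, ∀ k : ℤ, |k| ≤ m → Good μ (ν i) k → ν i (k • x) < (1 / 2 : ℝ) ^ m) ∧
      (∀ i ≤ m, ∀ k : ℤ, |k| ≤ m → ¬ Good μ (ν i) k → ∀ c : ℕ → ℤ, (∀ l < m, |c l| ≤ m) →
        δ i / 6 ≤ ν i (k • x - ∑ l ∈ Finset.range m, c l • g l))) ?_ ?_
  · intro m g
    let T : Finset (ℕ × ℤ) := Finset.range (m + 1) ×ˢ Finset.Icc (-(m : ℤ)) m
    have hT : ∀ i ≤ m, ∀ k : ℤ, |k| ≤ m → (i, k) ∈ T := fun i hi k hk =>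
      Finset.mem_product.2 ⟨Finset.mem_range.2 (Nat.lt_succ_of_le hi),
        Finset.mem_Icc.2 (abs_le.1 hk)⟩
    obtain ⟨μ', h1, h2, h3⟩ := exists_absorb μ (fun t : ℕ × ℤ => ν t.1) (fun t => t.2)
      (T.filter fun t => Good μ (ν t.1) t.2) (fun t ht => (Finset.mem_filter.1 ht).2)
    let F : Finset G := (Fintype.piFinset fun _ : Fin m => Finset.Icc (-(m : ℤ)) m).image
      fun c => ∑ l : Fin m, c l • g l
    obtain ⟨x, hx, hxF⟩ := esc_simul μ' (fun t : ℕ × ℤ => ν t.1) (fun t => δ t.1 / 2)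
      (fun t => t.2) (T.filter fun t => ¬ Good μ (ν t.1) t.2)
      (fun t ht => h3 _ _ _ (esc_of_not_good (hν t.1) (Finset.mem_filter.1 ht).2))
      ((1 / 2 : ℝ) ^ m) (by positivity) F
    refine ⟨x, (h1 x).trans_lt hx, fun i hi k hk hg => ?_, fun i hi k hk hg c hc => ?_⟩
    · exact (h2 (i, k) (Finset.mem_filter.2 ⟨hT i hi k hk, hg⟩) x).trans_lt hx
    · have := hxF (i, k) (Finset.mem_filter.2 ⟨hT i hi k hk, hg⟩)
        (∑ l ∈ Finset.range m, c l • g l) (Finset.mem_image.2 ⟨fun l => c l,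
          Fintype.mem_piFinset.2 fun l => Finset.mem_Icc.2 (abs_le.1 (hc l l.2)),
          (Finset.sum_range fun l => c l • g l).symm⟩)
      simp only at this
      linarith
  · rintro m g g' x hgg' ⟨h1, h2, h3⟩
    refine ⟨h1, h2, fun i hi k hk hg c hc => ?_⟩
    have e : ∑ l ∈ Finset.range m, c l • g' l = ∑ l ∈ Finset.range m, c l • g l :=
      Finset.sum_congr rfl fun l hl => by rw [hgg' l (Finset.mem_range.1 hl)]
    rw [e]
    exact h3 i hi k hk hg c hc

end Pool.Agent.P.MP_e45129_gt
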