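import Pool.Agent.P.MP_e45129_gt.Comb

/-!
The coarser group topology in which the independent sequence is Cauchy along an ultrafilter.
-/

namespace Pool.Agent.P.MP_e45129_gt

open Set Filter Topology
open scoped Pointwise

variable {G : Type*} [AddCommGroup G]

/-- finite sums of differences of terms of `g`, the `j`-th difference taken with indices in
`S j` -/
def Sig (g : ℕ → G) (S : ℕ → Set ℕ) : Set G :=
  {x | ∃ (J : Finset ℕ) (a b : ℕ → ℕ), (∀ j ∈ J, a j ∈ S j ∧ b j ∈ S j) ∧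
    x = ∑ j ∈ J, (g (a j) - g (b j))}

theorem zero_mem_Sig (g : ℕ → G) (S : ℕ → Set ℕ) : (0 : G) ∈ Sig g S :=
  ⟨∅, id, id, by simp, by simp⟩

theorem Sig_mono (g : ℕ → G) {S S' : ℕ → Set ℕ} (h : ∀ j, S j ⊆ S' j) : Sig g S ⊆ Sig g S' := by
  rintro x ⟨J, a, b, hab, rfl⟩
  exact ⟨J, a, b, fun j hj => ⟨h j (hab j hj).1, h j (hab j hj).2⟩, rfl⟩

theorem neg_mem_Sig {g : ℕ → G} {S : ℕ → Set ℕ} {x : G} (hx : x ∈ Sig g S) : -x ∈ Sig g S := by
  obtain ⟨J, a, b, hab, rfl⟩ := hx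
  refine ⟨J, b, a, fun j hj => ⟨(hab j hj).2, (hab j hj).1⟩, ?_⟩
  rw [← Finset.sum_neg_distrib]
  exact Finset.sum_congr rfl fun j _ => neg_sub _ _

theorem add_mem_Sig {g : ℕ → G} {S : ℕ → Set ℕ} {x y : G}
    (hx : x ∈ Sig g fun j => S (2 * j) ∩ S (2 * j + 1))
    (hy : y ∈ Sig g fun j => S (2 * j) ∩ S (2 * j + 1)) : x + y ∈ Sig g S := by
  classical
  obtain ⟨J, a, b, hab, rfl⟩ := hx
  obtain ⟨J', a', b', hab', rfl⟩ := hy
  have hdis : Disjoint (J.image fun j => 2 * j) (J'.image fun j => 2 * j + 1) := by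
    rw [Finset.disjoint_left]
    intro i hi hi'
    obtain ⟨j, -, rfl⟩ := Finset.mem_image.1 hi
    obtain ⟨j', -, h⟩ := Finset.mem_image.1 hi'
    omega
  refine ⟨(J.image fun j => 2 * j) ∪ (J'.image fun j => 2 * j + 1),
    fun i => if i % 2 = 0 then a (i / 2) else a' (i / 2),
    fun i => if i % 2 = 0 then b (i / 2) else b' (i / 2), ?_, ?_⟩
  · intro i hi
    rcases Finset.mem_union.1 hi with hi | hi
    · obtain ⟨j, hj, rfl⟩ := Finset.mem_image.1 hi
      have e1 : 2 * j % 2 = 0 := by omega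
      have e2 : 2 * j / 2 = j := by omega
      simp only [e1, e2, if_true]
      exact ⟨(hab j hj).1.1, (hab j hj).2.1⟩
    · obtain ⟨j, hj, rfl⟩ := Finset.mem_image.1 hi
      have e1 : ¬ (2 * j + 1) % 2 = 0 := by omega
      have e2 : (2 * j + 1) / 2 = j := by omega
      simp only [e1, e2, if_false]
      exact ⟨(hab' j hj).1.2, (hab' j hj).2.2⟩
  · rw [Finset.sum_union hdis, Finset.sum_image (fun x _ y _ h => by simpa using h),
      Finset.sum_image (fun x _ y _ h => by simpa using h)]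
    congr 1
    · refine Finset.sum_congr rfl fun j _ => ?_
      have e1 : 2 * j % 2 = 0 := by omega
      have e2 : 2 * j / 2 = j := by omega
      simp only [e1, e2, if_true]
    · refine Finset.sum_congr rfl fun j _ => ?_
      have e1 : ¬ (2 * j + 1) % 2 = 0 := by omega
      have e2 : (2 * j + 1) / 2 = j := by omega
      simp only [e1, e2, if_false]

theorem sum_half_pow_le (J : Finset ℕ) : ∑ j ∈ J, (1 / 2 : ℝ) ^ j ≤ 2 := by
  have := (summable_geometric_two).sum_le_tsum J (fun i _ => by positivity)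
  rwa [tsum_geometric_two] at this

theorem sum_half_pow_tail (J : Finset ℕ) (n : ℕ) (h : ∀ j ∈ J, n < j) :
    ∑ j ∈ J, (1 / 2 : ℝ) ^ j ≤ (1 / 2 : ℝ) ^ n := by
  classical
  have e : ∑ j ∈ J, (1 / 2 : ℝ) ^ j =
      (1 / 2 : ℝ) ^ (n + 1) * ∑ i ∈ J.image (fun j => j - (n + 1)), (1 / 2 : ℝ) ^ i := by
    rw [Finset.sum_image, Finset.mul_sum]
    · refine Finset.sum_congr rfl fun j hj => ?_
      rw [← pow_add]
      congr 1
      have := h j hj
      omega
    · intro x hx y hy hxy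
      have h1 := h x hx
      have h2 := h y hy
      simp only at hxy
      omega
  rw [e]
  have := sum_half_pow_le (J.image (fun j => j - (n + 1)))
  calc (1 / 2 : ℝ) ^ (n + 1) * ∑ i ∈ J.image (fun j => j - (n + 1)), (1 / 2 : ℝ) ^ i
      ≤ (1 / 2 : ℝ) ^ (n + 1) * 2 := mul_le_mul_of_nonneg_left this (by positivity)
    _ = (1 / 2 : ℝ) ^ n := by rw [pow_succ]; ring

/-- the coefficient description of an element of `Sig g S` -/
theorem Sig_coeff {g : ℕ → G} {S : ℕ → Set ℕ} {n : ℕ} (hS : ∀ j, ∀ m ∈ S j, j < m ∧ n < m)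
    {J : Finset ℕ} {a b : ℕ → ℕ} (hab : ∀ j ∈ J, a j ∈ S j ∧ b j ∈ S j) :
    ∃ (M : ℕ) (c : ℕ → ℤ), (∀ m, |c m| ≤ m) ∧ (∀ m ≤ n, c m = 0) ∧
      ∑ m ∈ Finset.range M, c m = 0 ∧
      ∑ j ∈ J, (g (a j) - g (b j)) = ∑ m ∈ Finset.range M, c m • g m ∧
      ∀ w : ℕ → ℝ, (∀ m, 0 ≤ w m) →
        ∑ m ∈ Finset.range M, |(c m : ℝ)| * w m ≤ ∑ j ∈ J, (w (a j) + w (b j)) := by
  classical
  let M := J.sup a + J.sup b + 1
  have haM : ∀ j ∈ J, a j ∈ Finset.range M := fun j hj => by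
    have := Finset.le_sup (f := a) hj
    exact Finset.mem_range.2 (by omega)
  have hbM : ∀ j ∈ J, b j ∈ Finset.range M := fun j hj => by
    have := Finset.le_sup (f := b) hj
    exact Finset.mem_range.2 (by omega)
  let e : ℕ → ℕ → ℤ := fun j m => (if a j = m then 1 else 0) - (if b j = m then 1 else 0)
  refine ⟨M, fun m => ∑ j ∈ J, e j m, fun m => ?_, fun m hm => ?_, ?_, ?_, fun w hw => ?_⟩
  · have h1 : ∑ j ∈ J, e j m = ∑ j ∈ J.filter (· < m), e j m := by
      refine (Finset.sum_filter_of_ne fun j hj hne => ?_).symm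
      by_contra hlt
      apply hne
      have h1 := (hS j _ (hab j hj).1).1
      have h2 := (hS j _ (hab j hj).2).1
      have : a j ≠ m := by omega
      have : b j ≠ m := by omega
      simp [e, *]
    simp only
    rw [h1]
    refine (Finset.abs_sum_le_sum_abs _ _).trans ?_
    have h2 : ∑ j ∈ J.filter (· < m), |e j m| ≤ ∑ j ∈ J.filter (· < m), (1 : ℤ) := by
      refine Finset.sum_le_sum fun j _ => ?_
      simp only [e]
      split_ifs <;> simp
    refine h2.trans ?_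
    rw [Finset.sum_const, nsmul_eq_mul, mul_one]
    have : (J.filter (· < m)).card ≤ (Finset.range m).card :=
      Finset.card_le_card fun j hj => Finset.mem_range.2 (Finset.mem_filter.1 hj).2
    rw [Finset.card_range] at this
    exact_mod_cast this
  · refine Finset.sum_eq_zero fun j hj => ?_
    have h1 := (hS j _ (hab j hj).1).2
    have h2 := (hS j _ (hab j hj).2).2
    have : a j ≠ m := by omega
    have : b j ≠ m := by omega
    simp [e, *]
  · rw [Finset.sum_comm]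
    refine Finset.sum_eq_zero fun j hj => ?_
    simp only [e, Finset.sum_sub_distrib, Finset.sum_ite_eq, haM j hj, hbM j hj, if_true, sub_self]
  · simp only [Finset.sum_smul]
    rw [Finset.sum_comm]
    refine Finset.sum_congr rfl fun j hj => ?_
    simp only [e, sub_smul, ite_smul, one_smul, zero_smul, Finset.sum_sub_distrib,
      Finset.sum_ite_eq, haM j hj, hbM j hj, if_true]
  · have h1 : ∀ m, |((∑ j ∈ J, e j m : ℤ) : ℝ)| * w m ≤
        ∑ j ∈ J, ((if a j = m then w m else 0) + (if b j = m then w m else 0)) := by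
      intro m
      push_cast
      refine (mul_le_mul_of_nonneg_right (Finset.abs_sum_le_sum_abs _ _) (hw m)).trans ?_
      rw [Finset.sum_mul]
      refine Finset.sum_le_sum fun j _ => ?_
      simp only [e]
      have := hw m
      split_ifs <;> simp [this]
    refine (Finset.sum_le_sum fun m _ => h1 m).trans ?_
    rw [Finset.sum_comm]
    refine Finset.sum_le_sum fun j hj => ?_
    simp only [Finset.sum_add_distrib, Finset.sum_ite_eq, haM j hj, hbM j hj, if_true, le_refl]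

/-- the key precompactness theorem -/
theorem core [τ : TopologicalSpace G] [IsTopologicalAddGroup G] [T2Space G]
    (μ : AddGroupSeminorm G) (hμ : ∀ ε : ℝ, 0 < ε → {x | μ x < ε} ∈ 𝓝 (0 : G))
    (L : Set (AddGroupSeminorm G))
    (hLc : ∀ ν ∈ L, ∀ ε : ℝ, 0 < ε → {x | ν x < ε} ∈ 𝓝 (0 : G))
    (hLe : ∀ ν ∈ L, ∃ δ : ℝ, 0 < δ ∧ Expand ν δ)
    (hLb : ∀ V ∈ 𝓝 (0 : G), ∃ ν ∈ L, ∃ r : ℝ, 0 < r ∧ {x | ν x < r} ⊆ V)
    {r₀ : ℝ} (hr₀ : 0 < r₀)
    (hmin : ∀ σ : TopologicalSpace G, @IsTopologicalAddGroup G σ _ → @T2Space G σ → τ ≤ σ →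
      {x | μ x < r₀} ∈ @nhds G σ 0 → σ = τ) :
    ∀ ν ∈ L, Good μ ν 1 := by
  classical
  intro ν₀ hν₀
  by_contra hbad
  -- countably many levels realising all subgroups of good integers
  have hlev : ∀ d : ℕ, ∃ ν' ∈ L, (∃ ν ∈ L, ∀ k : ℤ, Good μ ν k ↔ (d : ℤ) ∣ k) →
      ∀ k : ℤ, Good μ ν' k ↔ (d : ℤ) ∣ k := by
    intro d
    by_cases h : ∃ ν ∈ L, ∀ k : ℤ, Good μ ν k ↔ (d : ℤ) ∣ k
    · obtain ⟨ν, hν, h'⟩ := h
      exact ⟨ν, hν, fun _ => h'⟩
    · exact ⟨ν₀, hν₀, fun h' => absurd h' h⟩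
  choose ν' hν'L hν' using hlev
  choose δ hδ hδe using fun d => hLe (ν' d) (hν'L d)
  obtain ⟨g, hg⟩ := exists_indep_seq μ ν' δ hδe
  let 𝓦 : Ultrafilter ℕ := hyperfilter ℕ
  have hW : ∀ n : ℕ, {m | n < m} ∈ 𝓦 := fun n =>
    Nat.hyperfilter_le_atTop (eventually_gt_atTop n)
  -- the group filter basis
  let B : AddGroupFilterBasis G := addGroupFilterBasisOfComm
    {O | ∃ W ∈ 𝓝 (0 : G), ∃ S : ℕ → Set ℕ, (∀ j, S j ∈ 𝓦) ∧ O = W + Sig g S}
    ⟨_, univ, univ_mem, fun _ => univ, fun _ => univ_mem, rfl⟩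
    (by
      rintro _ _ ⟨W, hW, S, hS, rfl⟩ ⟨W', hW', S', hS', rfl⟩
      refine ⟨_, ⟨W ∩ W', inter_mem hW hW', fun j => S j ∩ S' j,
        fun j => inter_mem (hS j) (hS' j), rfl⟩, subset_inter ?_ ?_⟩
      · exact add_subset_add inter_subset_left (Sig_mono g fun j => inter_subset_left)
      · exact add_subset_add inter_subset_right (Sig_mono g fun j => inter_subset_right))
    (by
      rintro _ ⟨W, hW, S, -, rfl⟩
      exact ⟨0, mem_of_mem_nhds hW, 0, zero_mem_Sig g S, add_zero 0⟩)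
    (by
      rintro _ ⟨W, hW, S, hS, rfl⟩
      obtain ⟨W', hW', hWW⟩ := exists_nhds_zero_half hW
      refine ⟨_, ⟨W', hW', fun j => S (2 * j) ∩ S (2 * j + 1),
        fun j => inter_mem (hS _) (hS _), rfl⟩, ?_⟩
      rintro _ ⟨_, ⟨w, hw, x, hx, rfl⟩, _, ⟨w', hw', x', hx', rfl⟩, rfl⟩
      exact ⟨w + w', hWW w hw w' hw', x + x', add_mem_Sig hx hx', add_add_add_comm _ _ _ _⟩)
    (by
      rintro _ ⟨W, hW, S, hS, rfl⟩
      refine ⟨_, ⟨-W, neg_mem_nhds_zero G hW, S, hS, rfl⟩, ?_⟩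
      rintro _ ⟨w, hw, x, hx, rfl⟩
      exact ⟨-w, hw, -x, neg_mem_Sig hx, (neg_add w x).symm⟩)
  have hBmem : ∀ W ∈ 𝓝 (0 : G), ∀ S : ℕ → Set ℕ, (∀ j, S j ∈ 𝓦) →
      W + Sig g S ∈ @nhds G B.topology 0 := fun W hW S hS =>
    B.mem_nhds_zero ⟨W, hW, S, hS, rfl⟩
  have hBgrp : @IsTopologicalAddGroup G B.topology _ := B.isTopologicalAddGroup
  have hBle : τ ≤ B.topology := by
    rw [← continuous_id_iff_le]
    refine @continuous_of_continuousAt_zero G τ _ _ G (G →+ G) _ B.topology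
      (@IsTopologicalAddGroup.toContinuousAdd G B.topology _ hBgrp) _ _ (AddMonoidHom.id G) ?_
    change Tendsto id (𝓝 (0 : G)) (@nhds G B.topology 0)
    rw [B.nhds_zero_hasBasis.tendsto_right_iff]
    rintro _ ⟨W, hW, S, -, rfl⟩
    filter_upwards [hW] with w hw
    exact ⟨w, hw, 0, zero_mem_Sig g S, add_zero w⟩
  have hBU : {x | μ x < r₀} ∈ @nhds G B.topology 0 := by
    obtain ⟨n, hn⟩ := exists_pow_lt_of_lt_one (show 0 < r₀ / 8 by positivity)
      (show (1 / 2 : ℝ) < 1 by norm_num)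
    refine mem_of_superset (hBmem _ (hμ (r₀ / 2) (by positivity)) (fun j => {m | n + j < m})
      (fun j => hW _)) ?_
    rintro _ ⟨w, hw, _, ⟨J, a, b, hab, rfl⟩, rfl⟩
    have h1 : ∀ j m, n + j < m → μ (g m) ≤ r₀ / 8 * (1 / 2 : ℝ) ^ j := by
      intro j m hm
      have e1 : (1 / 2 : ℝ) ^ m ≤ (1 / 2 : ℝ) ^ (n + j) :=
        pow_le_pow_of_le_one (by norm_num) (by norm_num) hm.le
      rw [pow_add] at e1
      have e2 : (1 / 2 : ℝ) ^ n * (1 / 2 : ℝ) ^ j ≤ r₀ / 8 * (1 / 2 : ℝ) ^ j :=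
        mul_le_mul_of_nonneg_right hn.le (by positivity)
      linarith [(hg m).1]
    have h2 : μ (∑ j ∈ J, (g (a j) - g (b j))) ≤ ∑ j ∈ J, r₀ / 4 * (1 / 2 : ℝ) ^ j := by
      refine (sn_sum_le μ J _).trans (Finset.sum_le_sum fun j hj => ?_)
      linarith [sn_sub_le μ (g (a j)) (g (b j)), h1 j _ (hab j hj).1, h1 j _ (hab j hj).2]
    rw [← Finset.mul_sum] at h2
    have h3 : r₀ / 4 * ∑ j ∈ J, (1 / 2 : ℝ) ^ j ≤ r₀ / 4 * 2 :=
      mul_le_mul_of_nonneg_left (sum_half_pow_le J) (by positivity)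
    have h4 : μ w < r₀ / 2 := hw
    change μ (w + _) < r₀
    linarith [map_add_le_add μ w (∑ j ∈ J, (g (a j) - g (b j)))]
  have hBT2 : @T2Space G B.topology := by
    refine @IsTopologicalAddGroup.t2Space_of_zero_sep G B.topology _ hBgrp fun x hx => ?_
    obtain ⟨ν, hνL, r, hr, hrx⟩ := hLb {x}ᶜ (isOpen_compl_singleton.mem_nhds hx.symm)
    have hxr : r ≤ ν x := by
      by_contra h
      exact hrx (not_le.1 h) rfl
    obtain ⟨d, hd⟩ := exists_good_iff_dvd μ ν
    have hd' := hν' d ⟨ν, hνL, hd⟩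
    have hδd := hδ d
    by_cases hnear : ∃ (n : ℕ) (c : ℕ → ℤ),
        ν' d (x - ∑ l ∈ Finset.range n, c l • g l) < δ d / 24
    swap
    · refine ⟨_, hBmem _ (hLc _ (hν'L d) (δ d / 24) (by positivity)) (fun j => {m | j < m})
        (fun j => hW j), ?_⟩
      rintro ⟨w, hw, _, ⟨J, a, b, hab, rfl⟩, hx'⟩
      obtain ⟨M, c, -, -, -, hc, -⟩ := Sig_coeff (g := g) (S := fun j => {m | j < m}) (n := 0)
        (fun j m hm => ⟨hm, lt_of_le_of_lt (Nat.zero_le j) hm⟩) hab
      apply hnear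
      refine ⟨M, c, ?_⟩
      rw [← hc, ← hx']
      simpa using hw
    obtain ⟨n₀, c₀, hc₀⟩ := hnear
    obtain ⟨n₁, hn₁⟩ := exists_pow_lt_of_lt_one (show 0 < δ d / 24 by positivity)
      (show (1 / 2 : ℝ) < 1 by norm_num)
    obtain ⟨n, hn0, hn1, hnd, hnc⟩ : ∃ n : ℕ, n₀ ≤ n ∧ n₁ ≤ n ∧ d ≤ n ∧
        ∀ l < n₀, |c₀ l| ≤ n := by
      refine ⟨n₀ + n₁ + d + (Finset.range n₀).sup fun l => (c₀ l).natAbs, by omega, by omega,
        by omega, fun l hl => ?_⟩
      have : (c₀ l).natAbs ≤ (Finset.range n₀).sup fun l => (c₀ l).natAbs :=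
        Finset.le_sup (f := fun l => (c₀ l).natAbs) (Finset.mem_range.2 hl)
      rw [Int.abs_eq_natAbs]
      exact_mod_cast (by omega)
    -- the sequence `d • g m` is Cauchy along the ultrafilter
    have hcau : ∀ ε : ℝ, 0 < ε → ∃ S ∈ 𝓦, ∀ m ∈ S, ∀ m' ∈ S,
        ν ((d : ℤ) • g m - (d : ℤ) • g m') ≤ ε := by
      intro ε hε
      obtain ⟨r', hr', F, hF⟩ := (hd d).2 dvd_rfl (ε / 2) (by positivity)
      obtain ⟨N, hN⟩ := exists_pow_lt_of_lt_one hr' (show (1 / 2 : ℝ) < 1 by norm_num)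
      have h1 : (⋃ f ∈ (F : Set G), {m | ν ((d : ℤ) • g m - f) < ε / 2}) ∈ 𝓦 := by
        refine mem_of_superset (hW N) fun m hm => ?_
        have e1 : (1 / 2 : ℝ) ^ m ≤ (1 / 2 : ℝ) ^ N :=
          pow_le_pow_of_le_one (by norm_num) (by norm_num) (le_of_lt hm)
        obtain ⟨f, hf, h⟩ := hF (g m) (by linarith [(hg m).1])
        exact mem_iUnion₂.2 ⟨f, hf, h⟩
      obtain ⟨f, -, hf⟩ := (Ultrafilter.finite_biUnion_mem_iff F.finite_toSet).1 h1
      refine ⟨_, hf, fun m hm m' hm' => ?_⟩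
      have h2 : ν ((d : ℤ) • g m - f) < ε / 2 := hm
      have h3 : ν ((d : ℤ) • g m' - f) < ε / 2 := hm'
      have h4 := sn_tri ν ((d : ℤ) • g m) f ((d : ℤ) • g m')
      rw [sn_comm ν f] at h4
      linarith
    choose S hS hSc using fun j : ℕ => hcau (r / 8 * (1 / 2 : ℝ) ^ j) (by positivity)
    refine ⟨_, hBmem _ (inter_mem (hLc _ hνL (r / 2) (by positivity))
      (hLc _ (hν'L d) (δ d / 24) (by positivity))) (fun j => S j ∩ {m | n + j < m})
      (fun j => inter_mem (hS j) (hW _)), ?_⟩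
    rintro ⟨w, ⟨hw1, hw2⟩, _, ⟨J, a, b, hab, rfl⟩, hx'⟩
    have hw1' : ν w < r / 2 := hw1
    have hw2' : ν' d w < δ d / 24 := hw2
    obtain ⟨M, c, hc1, hc2, hc3, hc4, hc5⟩ := Sig_coeff (g := g)
      (S := fun j => S j ∩ {m | n + j < m}) (n := n)
      (fun j m hm => by have : n + j < m := hm.2; omega) hab
    simp only at hx'
    rw [hc4] at hx'
    -- all coefficients are divisible by d
    have hdiv : ∀ m ∈ Finset.range M, (d : ℤ) ∣ c m := by
      by_contra hcon
      push Not at hcon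
      let T := (Finset.range M).filter fun m => ¬ (d : ℤ) ∣ c m
      have hTne : T.Nonempty := by
        obtain ⟨m, hm, hm'⟩ := hcon
        exact ⟨m, Finset.mem_filter.2 ⟨hm, hm'⟩⟩
      set m := T.max' hTne with hm
      have hmT := Finset.mem_filter.1 (T.max'_mem hTne)
      rw [← hm] at hmT
      have hmM : m < M := Finset.mem_range.1 hmT.1
      have hnm : n < m := by
        by_contra h
        apply hmT.2
        rw [hc2 m (not_lt.1 h)]
        exact dvd_zero _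
      have htail : ∀ l ∈ Finset.Ico (m + 1) M, ν' d (c l • g l) ≤ (1 / 2 : ℝ) ^ l := by
        intro l hl
        obtain ⟨hl1, hl2⟩ := Finset.mem_Ico.1 hl
        refine ((hg l).2.1 d (by omega) (c l) (hc1 l) ((hd' _).2 ?_)).le
        by_contra h
        have := T.le_max' l (Finset.mem_filter.2 ⟨Finset.mem_range.2 hl2, h⟩)
        omega
      have ht : ν' d (∑ l ∈ Finset.Ico (m + 1) M, c l • g l) < δ d / 24 := by
        have e1 := (sn_sum_le (ν' d) _ _).trans (Finset.sum_le_sum htail)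
        have e2 := sum_half_pow_tail (Finset.Ico (m + 1) M) n₁ fun j hj => by
          have := (Finset.mem_Ico.1 hj).1
          omega
        linarith
      let c' : ℕ → ℤ := fun l => (if l < n₀ then c₀ l else 0) - c l
      have hc' : ∀ l < m, |c' l| ≤ m := by
        intro l hl
        by_cases h : l < n₀
        · have e1 : c l = 0 := hc2 l (by omega)
          have e2 := hnc l h
          simp only [c', h, if_true, e1, sub_zero]
          have : (n : ℤ) ≤ m := by exact_mod_cast hnm.le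
          linarith
        · have e2 := hc1 l
          simp only [c', h, if_false, zero_sub, abs_neg]
          have : (l : ℤ) ≤ m := by exact_mod_cast hl.le
          linarith
      have hkey := (hg m).2.2 d (by omega) (c m) (hc1 m) (fun h => hmT.2 ((hd' _).1 h)) c' hc'
      have e1 : ∑ l ∈ Finset.range m, c' l • g l =
          ∑ l ∈ Finset.range n₀, c₀ l • g l - ∑ l ∈ Finset.range m, c l • g l := by
        simp only [c', sub_smul, Finset.sum_sub_distrib]
        congr 1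
        symm
        refine Finset.sum_subset_zero_on_sdiff (Finset.range_subset_range.2 (by omega)) ?_ ?_
        · intro l hl
          have : ¬ l < n₀ := fun h => (Finset.mem_sdiff.1 hl).2 (Finset.mem_range.2 h)
          simp [this]
        · intro l hl
          simp [Finset.mem_range.1 hl]
      have e2 : ∑ l ∈ Finset.range M, c l • g l = ∑ l ∈ Finset.range m, c l • g l + c m • g m +
          ∑ l ∈ Finset.Ico (m + 1) M, c l • g l := by
        rw [← Finset.sum_range_succ (fun l => c l • g l) m,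
          Finset.sum_range_add_sum_Ico _ (by omega)]
      have e3 : c m • g m - ∑ l ∈ Finset.range m, c' l • g l =
          (x - ∑ l ∈ Finset.range n₀, c₀ l • g l) - w -
            ∑ l ∈ Finset.Ico (m + 1) M, c l • g l := by
        rw [e1, ← hx', e2]; abel
      rw [e3] at hkey
      have e4 := sn_sub_le (ν' d) ((x - ∑ l ∈ Finset.range n₀, c₀ l • g l) - w)
        (∑ l ∈ Finset.Ico (m + 1) M, c l • g l)
      have e5 := sn_sub_le (ν' d) (x - ∑ l ∈ Finset.range n₀, c₀ l • g l) w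
      linarith
    -- hence the sum is small for ν
    obtain ⟨p, hp⟩ : (⋂ j ∈ J, S j).Nonempty :=
      Ultrafilter.nonempty_of_mem ((Filter.biInter_finset_mem J).2 fun j _ => hS j)
    have hp' : ∀ j ∈ J, p ∈ S j := fun j hj => mem_iInter₂.1 hp j hj
    have hq0 : ∑ m ∈ Finset.range M, c m / (d : ℤ) = 0 := by
      rcases eq_or_ne (d : ℤ) 0 with h0 | h0
      · simp [h0]
      · apply mul_left_cancel₀ h0
        rw [Finset.mul_sum, mul_zero, ← hc3]
        exact Finset.sum_congr rfl fun m hm => Int.mul_ediv_cancel' (hdiv m hm)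
    have e1 : ∑ m ∈ Finset.range M, c m • g m =
        ∑ m ∈ Finset.range M, (c m / (d : ℤ)) • ((d : ℤ) • g m - (d : ℤ) • g p) := by
      simp only [smul_sub, Finset.sum_sub_distrib]
      rw [← Finset.sum_smul, hq0, zero_smul, sub_zero]
      refine Finset.sum_congr rfl fun m hm => ?_
      rw [smul_smul, Int.ediv_mul_cancel (hdiv m hm)]
    have e2 : ν (∑ m ∈ Finset.range M, c m • g m) ≤
        ∑ m ∈ Finset.range M, |(c m : ℝ)| * ν ((d : ℤ) • g m - (d : ℤ) • g p) := by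
      rw [e1]
      refine (sn_sum_le ν _ _).trans (Finset.sum_le_sum fun m _ => ?_)
      refine (sn_zsmul_le ν _ _).trans (mul_le_mul_of_nonneg_right ?_ (apply_nonneg ν _))
      have := Int.abs_ediv_le_abs (c m) (d : ℤ)
      exact_mod_cast this
    have e3 := hc5 (fun m => ν ((d : ℤ) • g m - (d : ℤ) • g p)) fun m => apply_nonneg ν _
    have e4 : ∑ j ∈ J, (ν ((d : ℤ) • g (a j) - (d : ℤ) • g p) +
        ν ((d : ℤ) • g (b j) - (d : ℤ) • g p)) ≤ ∑ j ∈ J, r / 4 * (1 / 2 : ℝ) ^ j := by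
      refine Finset.sum_le_sum fun j hj => ?_
      linarith [hSc j _ (hab j hj).1.1 p (hp' j hj), hSc j _ (hab j hj).2.1 p (hp' j hj)]
    rw [← Finset.mul_sum] at e4
    have e5 : r / 4 * ∑ j ∈ J, (1 / 2 : ℝ) ^ j ≤ r / 4 * 2 :=
      mul_le_mul_of_nonneg_left (sum_half_pow_le J) (by positivity)
    have e6 := map_add_le_add ν w (∑ m ∈ Finset.range M, c m • g m)
    rw [hx'] at e6
    linarith
  -- so the two topologies agree, which is absurd
  have heq := hmin B.topology hBgrp hBT2 hBle hBU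
  obtain ⟨d, hd⟩ := exists_good_iff_dvd μ ν₀
  have hd' := hν' d ⟨ν₀, hν₀, hd⟩
  have hbad' : ¬ Good μ (ν' d) 1 := fun h => hbad ((hd 1).2 ((hd' 1).1 h))
  have hball : {x | ν' d x < δ d / 6} ∈ @nhds G B.topology 0 := by
    rw [heq]
    exact hLc _ (hν'L d) _ (by linarith [hδ d])
  obtain ⟨_, ⟨W, hW', S, hS, rfl⟩, hsub⟩ := B.nhds_zero_hasBasis.mem_iff.1 hball
  obtain ⟨b, hb⟩ := Ultrafilter.nonempty_of_mem (hS 0)
  obtain ⟨a, ha, hab⟩ := Ultrafilter.nonempty_of_mem (inter_mem (hS 0) (hW (b + d)))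
  have hab' : b + d < a := hab
  have h1 : ν' d (g a - g b) < δ d / 6 :=
    hsub ⟨0, mem_of_mem_nhds hW', g a - g b,
      ⟨{0}, fun _ => a, fun _ => b, by simpa using ⟨ha, hb⟩, by simp⟩, zero_add _⟩
  have h2 := (hg a).2.2 d (by omega) 1 (by rw [abs_one]; exact_mod_cast (by omega)) hbad'
    (fun l => if l = b then 1 else 0) (fun l _ => by
      split_ifs
      · rw [abs_one]; exact_mod_cast (by omega)
      · simp)
  simp only [ite_smul, one_smul, zero_smul, Finset.sum_ite_eq', Finset.mem_range,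
    show b < a by omega, if_true] at h2
  linarith

end Pool.Agent.P.MP_e45129_gt
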