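import Pool.Agent.P.MP_e45129_gt.Core

/-!
From GTG sets to seminorms, and the structure theorem.
-/

namespace Pool.Agent.P.MP_e45129_gt

open Set Filter Topology
open scoped Pointwise

/-- a first countable abelian topological group is described by a seminorm -/
theorem exists_seminorm {G : Type*} [AddCommGroup G] [TopologicalSpace G]
    [IsTopologicalAddGroup G] [(𝓝 (0 : G)).IsCountablyGenerated] :
    ∃ p : AddGroupSeminorm G, (∀ ε : ℝ, 0 < ε → {x | p x < ε} ∈ 𝓝 (0 : G)) ∧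
      ∀ V ∈ 𝓝 (0 : G), ∃ ε : ℝ, 0 < ε ∧ {x | p x < ε} ⊆ V := by
  let u : UniformSpace G := IsTopologicalAddGroup.rightUniformSpace G
  have hu : @uniformity G u = comap (fun p : G × G => p.2 + -p.1) (𝓝 0) :=
    uniformity_eq_comap_nhds_zero' G
  have hcg : (@uniformity G u).IsCountablyGenerated := by
    rw [hu]; infer_instance
  obtain ⟨I, hI⟩ := @UniformSpace.metrizable_uniformity G u hcg
  let D : G → G → ℝ := fun x y => min 1 (@dist G I.toDist x y)
  have hD0 : ∀ x, D x x = 0 := fun x => by simp [D]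
  have hDc : ∀ x y, D x y = D y x := fun x y => by simp only [D, @dist_comm G I x y]
  have hDn : ∀ x y, 0 ≤ D x y := fun x y => le_min zero_le_one (@dist_nonneg G I x y)
  have hDt : ∀ x y z, D x z ≤ D x y + D y z := by
    intro x y z
    have h1 := @dist_triangle G I x y z
    have h2 := @dist_nonneg G I x y
    have h3 := @dist_nonneg G I y z
    simp only [D, min_def]
    split_ifs <;> linarith
  have hbd : ∀ x, BddAbove (range fun y => D (x + y) y) := fun x =>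
    ⟨1, by rintro _ ⟨y, rfl⟩; exact min_le_left _ _⟩
  have hle : ∀ x y, D (x + y) y ≤ ⨆ y, D (x + y) y := fun x y => le_ciSup (hbd x) y
  have hneg : ∀ x, ⨆ y, D (-x + y) y ≤ ⨆ y, D (x + y) y := by
    intro x
    refine ciSup_le fun y => ?_
    have := hle x (-x + y)
    rwa [add_neg_cancel_left, hDc] at this
  let p : AddGroupSeminorm G :=
    { toFun := fun x => ⨆ y, D (x + y) y
      map_zero' := by simp [hD0]
      add_le' := fun x x' => ciSup_le fun y => by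
        have h1 := hle x (x' + y)
        have h2 := hle x' y
        have h3 := hDt (x + x' + y) (x' + y) y
        rw [← add_assoc] at h1
        linarith
      neg' := fun x => le_antisymm (hneg x) (by simpa using hneg (-x)) }
  have hU : ∀ s : Set (G × G), s ∈ comap (fun p : G × G => p.2 + -p.1) (𝓝 (0 : G)) ↔
      ∃ ε > 0, ∀ ⦃a b : G⦄, @dist G I.toDist a b < ε → (a, b) ∈ s := by
    intro s
    rw [← hu, ← hI]
    exact @Metric.mem_uniformity_dist G I s
  refine ⟨p, fun ε hε => ?_, fun V hV => ?_⟩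
  · obtain ⟨V, hV, hVs⟩ := mem_comap.1 ((hU {q | @dist G I.toDist q.1 q.2 < ε / 2}).2
      ⟨ε / 2, by positivity, fun a b h => h⟩)
    filter_upwards [hV] with x hx
    have : p x ≤ ε / 2 := by
      refine ciSup_le fun y => ?_
      rw [hDc]
      refine (min_le_right _ _).trans (le_of_lt ?_)
      exact hVs (a := (y, x + y)) (by simpa using hx)
    linarith
  · obtain ⟨ε, hε, h⟩ := (hU ((fun p : G × G => p.2 + -p.1) ⁻¹' V)).1 (preimage_mem_comap hV)
    refine ⟨min 1 ε, lt_min one_pos hε, fun x hx => ?_⟩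
    have h1 : D (x + 0) 0 < min 1 ε := (hle x 0).trans_lt hx
    rw [add_zero, hDc] at h1
    have h2 : @dist G I.toDist 0 x < ε := by
      by_contra hcon
      exact absurd h1 (not_lt.2 (min_le_min le_rfl (not_lt.1 hcon)))
    simpa using h h2

variable {G : Type*} [AddCommGroup G]

theorem seminorm_of_gtg {U : Set G}
    (h : ∃ σ : TopologicalSpace G, @IsTopologicalAddGroup G σ _ ∧ (@nhds G σ 0).HasBasis
      (fun n : ℕ => 1 ≤ n) (fun n => {x | ∀ k : ℕ, 1 ≤ k → k ≤ n → k • x ∈ U})) :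
    ∃ p : AddGroupSeminorm G,
      (∀ ε : ℝ, 0 < ε → ∃ n : ℕ, {x | ∀ k : ℕ, 1 ≤ k → k ≤ n → k • x ∈ U} ⊆ {x | p x < ε}) ∧
      ∀ n : ℕ, ∃ ε : ℝ, 0 < ε ∧ {x | p x < ε} ⊆ {x | ∀ k : ℕ, 1 ≤ k → k ≤ n → k • x ∈ U} := by
  obtain ⟨σ, hσ, hb⟩ := h
  have := hb.isCountablyGenerated
  obtain ⟨p, h1, h2⟩ := exists_seminorm (G := G)
  refine ⟨p, fun ε hε => ?_, fun n => ?_⟩
  · obtain ⟨n, -, hn⟩ := hb.mem_iff.1 (h1 ε hε)
    exact ⟨n, hn⟩
  · obtain ⟨ε, hε, h⟩ := h2 _ (hb.mem_of_mem (show 1 ≤ n + 1 by omega))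
    exact ⟨ε, hε, fun x hx k hk hkn => h hx k hk (by omega)⟩

theorem frac_mem_nhds {H : Type*} [AddCommGroup H] [TopologicalSpace H] [IsTopologicalAddGroup H]
    {U : Set H} (hU : U ∈ 𝓝 (0 : H)) (n : ℕ) :
    {x | ∀ k : ℕ, 1 ≤ k → k ≤ n → k • x ∈ U} ∈ 𝓝 (0 : H) := by
  have h : ∀ k : ℕ, {x : H | k • x ∈ U} ∈ 𝓝 (0 : H) := fun k =>
    (continuous_nsmul k).continuousAt.preimage_mem_nhds (by simpa using hU)
  filter_upwards [(Filter.biInter_finset_mem (Finset.range (n + 1))).2 fun k _ => h k]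
    with x hx k _ hk
  exact mem_iInter₂.1 hx k (Finset.mem_range.2 (Nat.lt_succ_of_le hk))

theorem eq_of_compact_of_le {H : Type*} [τ : TopologicalSpace H] [CompactSpace H]
    (σ : TopologicalSpace H) (hσ : @T2Space H σ) (h : τ ≤ σ) : σ = τ := by
  refine le_antisymm ?_ h
  intro s hs
  have hc : @IsCompact H τ sᶜ :=
    @IsClosed.isCompact H τ _ _ ((@isClosed_compl_iff H τ s).2 hs)
  have hc' : @IsCompact H σ (id '' sᶜ) :=
    @IsCompact.image H H τ σ _ _ hc (continuous_id_iff_le.2 h)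
  rw [image_id] at hc'
  have := @IsCompact.isClosed H σ hσ _ hc'
  exact (@isClosed_compl_iff H σ s).1 this

theorem main {G : Type*} [AddCommGroup G] [u : UniformSpace G] [IsUniformAddGroup G]
    [CompleteSpace G] [T2Space G]
    (hgtg : ∀ V ∈ 𝓝 (0 : G), ∃ U ∈ 𝓝 (0 : G), U ⊆ V ∧
      ∃ σ : TopologicalSpace G, @IsTopologicalAddGroup G σ _ ∧ (@nhds G σ 0).HasBasis
        (fun n : ℕ => 1 ≤ n) (fun n => {x | ∀ k : ℕ, 1 ≤ k → k ≤ n → k • x ∈ U}))
    (hlm : ∃ V ∈ 𝓝 (0 : G), ∀ σ : TopologicalSpace G, @IsTopologicalAddGroup G σ _ →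
      @T2Space G σ → u.toTopologicalSpace ≤ σ → V ∈ @nhds G σ 0 → σ = u.toTopologicalSpace) :
    ∃ N : AddSubgroup G, IsCompact (N : Set G) ∧ ∃ W ∈ 𝓝 (0 : G ⧸ N), (∀ x ∈ W, -x ∈ W) ∧
      (𝓝 (0 : G ⧸ N)).HasBasis (fun n : ℕ => 1 ≤ n)
        (fun n => {x | ∀ k : ℕ, 1 ≤ k → k ≤ n → k • x ∈ W}) := by
  obtain ⟨V₀, hV₀, hmin⟩ := hlm
  obtain ⟨U, hU, hUV, hUg⟩ := hgtg V₀ hV₀
  obtain ⟨μ, hμ1, hμ2⟩ := seminorm_of_gtg hUg
  have hμ : ∀ ε : ℝ, 0 < ε → {x | μ x < ε} ∈ 𝓝 (0 : G) := fun ε hε => by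
    obtain ⟨n, hn⟩ := hμ1 ε hε
    exact mem_of_superset (frac_mem_nhds hU n) hn
  obtain ⟨r₀, hr₀, hr₀U⟩ := hμ2 1
  have hr₀U' : {x | μ x < r₀} ⊆ U := fun x hx => by simpa using hr₀U hx 1 le_rfl le_rfl
  let L : Set (AddGroupSeminorm G) := {ν | (∀ ε : ℝ, 0 < ε → {x | ν x < ε} ∈ 𝓝 (0 : G)) ∧
    ∃ δ : ℝ, 0 < δ ∧ Expand ν δ}
  have hLb : ∀ V ∈ 𝓝 (0 : G), ∃ ν ∈ L, ∃ r : ℝ, 0 < r ∧ {x | ν x < r} ⊆ V := by
    intro V hV
    obtain ⟨W, hW, hWV, hWg⟩ := hgtg V hV
    obtain ⟨ν, hν1, hν2⟩ := seminorm_of_gtg hWg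
    obtain ⟨r, hr, hrW⟩ := hν2 1
    have hrW' : {x | ν x < r} ⊆ W := fun x hx => by simpa using hrW hx 1 le_rfl le_rfl
    refine ⟨ν, ⟨fun ε hε => ?_, r, hr, fun ε hε => ?_⟩, r, hr, hrW'.trans hWV⟩
    · obtain ⟨n, hn⟩ := hν1 ε hε
      exact mem_of_superset (frac_mem_nhds hW n) hn
    · obtain ⟨n, hn⟩ := hν1 ε hε
      exact ⟨n, fun x hx => hn fun k hk hkn => hrW' (hx k hk hkn)⟩
  have hgood := core μ hμ L (fun ν hν => hν.1) (fun ν hν => hν.2) hLb hr₀
    (fun σ h1 h2 h3 h4 => hmin σ h1 h2 h3 (mem_of_superset h4 (hr₀U'.trans hUV)))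
  have hcov : ∀ V ∈ 𝓝 (0 : G), ∃ r : ℝ, 0 < r ∧ ∃ t : Set G, t.Finite ∧
      {x | μ x < r} ⊆ ⋃ y ∈ t, y +ᵥ V := by
    intro V hV
    obtain ⟨ν, hν, r, hr, hrV⟩ := hLb V hV
    obtain ⟨r', hr', F, hF⟩ := hgood ν hν r hr
    refine ⟨r', hr', F, F.finite_toSet, fun x hx => ?_⟩
    obtain ⟨f, hf, h⟩ := hF x hx
    rw [one_smul] at h
    exact mem_iUnion₂.2 ⟨f, hf, x - f, hrV h, by simp⟩
  have hμc : Continuous μ := by
    rw [continuous_iff_continuousAt]
    intro x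
    rw [ContinuousAt, Metric.tendsto_nhds]
    intro ε hε
    have h1 : (fun y => y - x) ⁻¹' {z | μ z < ε} ∈ 𝓝 x :=
      (continuous_sub_right x).continuousAt.preimage_mem_nhds (by simpa using hμ ε hε)
    filter_upwards [h1] with y hy
    have hy' : μ (y - x) < ε := hy
    have e1 := map_add_le_add μ (y - x) x
    have e2 := map_add_le_add μ (x - y) y
    rw [sub_add_cancel] at e1 e2
    rw [sn_comm] at e2
    rw [Real.dist_eq, abs_lt]
    constructor <;> linarith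
  let N : AddSubgroup G :=
    { carrier := {x | μ x = 0}
      zero_mem' := map_zero μ
      add_mem' := fun {a b} ha hb => by
        have h1 : μ a = 0 := ha
        have h2 : μ b = 0 := hb
        exact le_antisymm (by linarith [map_add_le_add μ a b]) (apply_nonneg μ _)
      neg_mem' := fun {a} ha => by
        have h1 : μ a = 0 := ha
        change μ (-a) = 0
        rw [map_neg_eq_map, h1] }
  have hNmem : ∀ x, x ∈ N ↔ μ x = 0 := fun x => Iff.rfl
  have hNcl : IsClosed (N : Set G) := isClosed_eq hμc continuous_const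
  have hNtb : TotallyBounded (N : Set G) := by
    rw [totallyBounded_iff_subset_finite_iUnion_nhds_zero]
    intro V hV
    obtain ⟨r, hr, t, ht, hsub⟩ := hcov V hV
    refine ⟨t, ht, fun x hx => hsub ?_⟩
    have : μ x = 0 := hx
    change μ x < r
    rw [this]; exact hr
  have hkey : ∀ V ∈ 𝓝 (0 : G), ∃ r : ℝ, 0 < r ∧ {x | μ x < r} ⊆ (N : Set G) + V := by
    intro V hV
    by_contra hcon
    push Not at hcon
    have hx : ∀ n : ℕ, ∃ x, μ x < 1 / ((n : ℝ) + 1) ∧ x ∉ (N : Set G) + interior V := by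
      intro n
      obtain ⟨x, hx, hx'⟩ := not_subset.1 (hcon (1 / ((n : ℝ) + 1)) (by positivity))
      exact ⟨x, hx, fun h => hx' (add_subset_add_left interior_subset h)⟩
    choose x hx1 hx2 using hx
    have htb : TotallyBounded (range x) := by
      rw [totallyBounded_iff_subset_finite_iUnion_nhds_zero]
      intro W hW
      obtain ⟨r, hr, t, ht, hsub⟩ := hcov W hW
      obtain ⟨n, hn⟩ := exists_nat_one_div_lt hr
      refine ⟨t ∪ x '' Iio n, ht.union ((finite_Iio n).image x), ?_⟩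
      rintro _ ⟨m, rfl⟩
      by_cases hm : m < n
      · exact mem_iUnion₂.2 ⟨x m, Or.inr ⟨m, hm, rfl⟩, 0, mem_of_mem_nhds hW, by simp⟩
      · have h1 : (1 : ℝ) / ((m : ℝ) + 1) ≤ 1 / ((n : ℝ) + 1) :=
          Nat.one_div_le_one_div (not_lt.1 hm)
        obtain ⟨y, hy, hy'⟩ := mem_iUnion₂.1 (hsub (show μ (x m) < r by linarith [hx1 m]))
        exact mem_iUnion₂.2 ⟨y, Or.inl hy, hy'⟩
    have hcomp : IsCompact (closure (range x)) :=
      htb.closure.isCompact_of_isClosed isClosed_closure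
    obtain ⟨y, -, hy⟩ := hcomp.exists_mapClusterPt (f := atTop) (u := x)
      (le_principal_iff.2 (mem_map.2 (Eventually.of_forall fun n =>
        subset_closure (mem_range_self n))))
    have hy0 : μ y = 0 := by
      refine le_antisymm ?_ (apply_nonneg μ y)
      by_contra hpos
      rw [not_le] at hpos
      obtain ⟨n, hn⟩ := exists_nat_one_div_lt hpos
      have h1 : {z | 1 / ((n : ℝ) + 1) < μ z} ∈ 𝓝 y :=
        (isOpen_lt continuous_const hμc).mem_nhds hn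
      obtain ⟨m, hm1, hm2⟩ := ((hy.frequently h1).and_eventually (eventually_ge_atTop n)).exists
      have h2 : (1 : ℝ) / ((m : ℝ) + 1) ≤ 1 / ((n : ℝ) + 1) := Nat.one_div_le_one_div hm2
      have h3 : 1 / ((n : ℝ) + 1) < μ (x m) := hm1
      linarith [hx1 m]
    have hopen : IsOpen ((N : Set G) + interior V) := isOpen_interior.add_left
    have hyin : y ∈ (N : Set G) + interior V :=
      ⟨y, hy0, 0, mem_interior_iff_mem_nhds.2 hV, add_zero y⟩
    obtain ⟨m, hm⟩ := (hy.frequently (hopen.mem_nhds hyin)).exists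
    exact hx2 m hm
  refine ⟨N, hNtb.isCompact_of_isClosed hNcl, QuotientAddGroup.mk '' {x | μ x < r₀}, ?_, ?_, ?_⟩
  · exact QuotientAddGroup.isOpenMap_coe.image_mem_nhds (hμ r₀ hr₀)
  · rintro _ ⟨x, hx, rfl⟩
    refine ⟨-x, ?_, rfl⟩
    change μ (-x) < r₀
    rw [map_neg_eq_map]; exact hx
  · refine ⟨fun t => ⟨fun ht => ?_, ?_⟩⟩
    · have h1 : QuotientAddGroup.mk ⁻¹' t ∈ 𝓝 (0 : G) :=
        QuotientAddGroup.continuous_mk.continuousAt.preimage_mem_nhds ht
      obtain ⟨r, hr, hsub⟩ := hkey _ h1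
      obtain ⟨n, hn⟩ := hμ1 r hr
      refine ⟨n + 1, by omega, fun q hq => ?_⟩
      obtain ⟨x, rfl⟩ := QuotientAddGroup.mk_surjective q
      have h2 : μ x < r := by
        refine hn fun k hk hkn => hr₀U' ?_
        obtain ⟨y, hy, hyx⟩ := hq k hk (by omega)
        have h3 : -y + k • x ∈ N := QuotientAddGroup.eq.1 hyx
        have h4 := map_add_le_add μ y (-y + k • x)
        rw [add_neg_cancel_left, (hNmem _).1 h3] at h4
        have h5 : μ y < r₀ := hy
        change μ (k • x) < r₀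
        linarith
      obtain ⟨a, ha, b, hb, rfl⟩ := hsub h2
      have : (QuotientAddGroup.mk (a + b) : G ⧸ N) = QuotientAddGroup.mk b := by
        rw [QuotientAddGroup.mk_add, (QuotientAddGroup.eq_zero_iff a).2 ha, zero_add]
      simp only
      rw [this]
      exact hb
    · rintro ⟨n, -, hn⟩
      exact mem_of_superset (frac_mem_nhds
        (QuotientAddGroup.isOpenMap_coe.image_mem_nhds (hμ r₀ hr₀)) n) hn

end Pool.Agent.P.MP_e45129_gt
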